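import Pool.Agent.PSS.StmtsS0

/-! Squad PSS, row BCL: the class is stable under Brauer quotients. -/

open scoped BigOperators

noncomputable section

namespace Pool.Agent.PSS.S0.H84

open Pool.Agent.PFC (tw IsTv)

section gen

variable {R V A B : Type} [CommRing R] [CommGroup V] [Ring A] [Algebra R A] [Ring B] [Algebra R B]

theorem mem_fx (α : V →* A) (Q : Subgroup V) (a : A) :
    a ∈ FxR (cw R α) Q ↔ ∀ q ∈ Q, α q * a = a * α q := by
  constructor
  · intro h q hq
    have h1 : α q * (a * α q⁻¹) = a := h q hq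
    calc α q * a = α q * (a * α q⁻¹) * α q := by
          rw [mul_assoc, mul_assoc, ← map_mul, inv_mul_cancel, map_one, mul_one]
      _ = a * α q := by rw [h1]
  · intro h q hq
    show α q * (a * α q⁻¹) = a
    rw [← mul_assoc, h q hq, mul_assoc, ← map_mul, mul_inv_cancel, map_one, mul_one]

theorem fx_mul (α : V →* A) (Q : Subgroup V) {a b : A} (ha : a ∈ FxR (cw R α) Q)
    (hb : b ∈ FxR (cw R α) Q) : a * b ∈ FxR (cw R α) Q := by
  rw [mem_fx] at ha hb ⊢
  intro q hq
  rw [← mul_assoc, ha q hq, mul_assoc, hb q hq, mul_assoc]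

theorem fx_anti (α : V →* A) {Q Q' : Subgroup V} (h : Q ≤ Q') {a : A}
    (ha : a ∈ FxR (cw R α) Q') : a ∈ FxR (cw R α) Q :=
  fun q hq => ha q (h hq)

theorem fx_one (α : V →* A) (Q : Subgroup V) : (1 : A) ∈ FxR (cw R α) Q := by
  rw [mem_fx]
  intro q _
  rw [mul_one, one_mul]

theorem bq_sub {α : V →* A} {Q : Subgroup V} {αB : V →* B} {β : A → B}
    (hq : IsBQ R α Q αB β) {a b : A} (ha : a ∈ FxR (cw R α) Q) (hb : b ∈ FxR (cw R α) Q) :
    β (a - b) = β a - β b := by
  have h1 : a - b = a + (-1 : R) • b := by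
    rw [neg_smul, one_smul, sub_eq_add_neg]
  rw [h1, hq.add a ha _ (Submodule.smul_mem _ _ hb), hq.smul _ b hb, neg_smul, one_smul,
    sub_eq_add_neg]

theorem central [Fintype V] {K : Type} [Fintype K] {α : V →* A} {lam : A →ₗ[R] R}
    {x y : K → A} (h : RF R α lam x y) (c : A) :
    c * ∑ k, x k * y k = (∑ k, x k * y k) * c := by
  have h1 : ∀ k, c * (x k * y k)
      = ∑ l, ∑ v, lam (α v⁻¹ * y l * (c * x k)) • (x l * α v * y k) := by
    intro k
    have h2 := h.e1 (c * x k)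
    calc c * (x k * y k) = (c * x k) * y k := by rw [mul_assoc]
      _ = (∑ l, ∑ v, lam (α v⁻¹ * y l * (c * x k)) • (x l * α v)) * y k := by rw [h2]
      _ = _ := by
          rw [Finset.sum_mul]
          refine Finset.sum_congr rfl fun l _ => ?_
          rw [Finset.sum_mul]
          refine Finset.sum_congr rfl fun v _ => ?_
          rw [smul_mul_assoc]
  have h3 : ∀ l, x l * y l * c
      = ∑ k, ∑ v, lam (α v⁻¹ * y l * (c * x k)) • (x l * α v * y k) := by
    intro l
    have h4 := h.e2 (y l * c)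
    calc x l * y l * c = x l * (y l * c) := by rw [mul_assoc]
      _ = x l * (∑ k, ∑ v, lam (y l * c * (x k * α v)) • (α v⁻¹ * y k)) := by rw [h4]
      _ = _ := by
          rw [Finset.mul_sum]
          refine Finset.sum_congr rfl fun k _ => ?_
          rw [Finset.mul_sum]
          refine Fintype.sum_equiv (Equiv.inv V) _ _ fun v => ?_
          show x l * lam (y l * c * (x k * α v)) • (α v⁻¹ * y k)
            = lam (α (v⁻¹)⁻¹ * y l * (c * x k)) • (x l * α v⁻¹ * y k)
          rw [mul_smul_comm, inv_inv, mul_assoc (x l)]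
          congr 1
          rw [h.sym]
          have h5 : y l * c * (x k * α v) = y l * c * x k * α v := by
            rw [mul_assoc (y l * c)]
          rw [← h.sym, h5, h.sym]
          congr 1
          simp only [mul_assoc]
  calc c * ∑ k, x k * y k = ∑ k, c * (x k * y k) := by rw [Finset.mul_sum]
    _ = ∑ k, ∑ l, ∑ v, lam (α v⁻¹ * y l * (c * x k)) • (x l * α v * y k) :=
        Finset.sum_congr rfl fun k _ => h1 k
    _ = ∑ l, ∑ k, ∑ v, lam (α v⁻¹ * y l * (c * x k)) • (x l * α v * y k) := Finset.sum_comm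
    _ = ∑ l, x l * y l * c := Finset.sum_congr rfl fun l _ => (h3 l).symm
    _ = (∑ k, x k * y k) * c := by rw [Finset.sum_mul]

end gen

theorem exT {V E : Type} [CommGroup V] [Group E] [Finite E] (φ : E →* MulAut V)
    (Q : Subgroup V) :
    ∃ T : Finset E, ∀ e : E, ∃! t, t ∈ T ∧ ∀ q ∈ Q, (φ t)⁻¹ q = (φ e)⁻¹ q := by
  classical
  let s : Setoid E :=
    { r := fun e e' => ∀ q ∈ Q, (φ e)⁻¹ q = (φ e')⁻¹ q
      iseqv := ⟨fun _ _ _ => rfl, fun h q hq => (h q hq).symm,
        fun h h' q hq => (h q hq).trans (h' q hq)⟩ }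
  have : Finite (Quotient s) := inferInstance
  let _ : Fintype (Quotient s) := Fintype.ofFinite _
  refine ⟨Finset.univ.image (fun z : Quotient s => z.out), fun e => ?_⟩
  refine ⟨(Quotient.mk s e).out, ⟨Finset.mem_image_of_mem _ (Finset.mem_univ _), ?_⟩, ?_⟩
  · exact (Quotient.mk_out (s := s) e : _)
  · rintro t ⟨ht, hr⟩
    obtain ⟨z, _, rfl⟩ := Finset.mem_image.mp ht
    have h1 : Quotient.mk s (z.out) = Quotient.mk s e := Quotient.sound (s := s) hr
    rw [Quotient.out_eq] at h1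
    show z.out = (Quotient.mk s e).out
    rw [h1]

theorem bcl (mck : MckStmt) (bpu : BpuStmt) (bbk : BbkStmt) : BclStmt := by
  classical
  intro ℓ _ F V E A B _ _ _ _ _ _ _ _ _ _ φ α Q αB β E1 hp hE hA hq hE1
  obtain ⟨lam, K, _, x, y, hRF, u, hu⟩ := hA.rt
  have hl : (ℓ : F) = 0 := CharP.cast_eq_zero F ℓ
  obtain ⟨hper, huni, lamB, KB, _, xB, yB, hRFB, hcomp⟩ :=
    bpu ℓ F V E A B K φ α Q αB β lam x y E1 hl hp hA.per hA.uni hRF hq hE1
  have hs : ∀ c : A, c * ∑ k, x k * y k = (∑ k, x k * y k) * c := central hRF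
  have hsu : (∑ k, x k * y k) * u = 1 := by rw [← hs, hu]
  have hsQ : ∑ k, x k * y k ∈ FxR (cw F α) Q := by
    rw [mem_fx]
    exact fun q _ => hs (α q)
  have huQ : u ∈ FxR (cw F α) Q := by
    rw [mem_fx]
    intro q _
    calc α q * u = u * (∑ k, x k * y k) * (α q * u) := by rw [hu, one_mul]
      _ = u * α q * ((∑ k, x k * y k) * u) := by
          rw [mul_assoc, ← mul_assoc _ (α q) u, ← hs, mul_assoc, mul_assoc]
      _ = u * α q := by rw [hsu, mul_one]
  refine ⟨?_, hper, huni, ⟨lamB, KB, _, xB, yB, hRFB, ?_⟩, ?_⟩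
  · have := hA.fin
    let f : FxR (cw F α) Q →ₗ[F] B :=
      { toFun := fun a => β a
        map_add' := fun a b => hq.add a a.2 b b.2
        map_smul' := fun r a => hq.smul r a a.2 }
    have hf : Function.Surjective f := by
      intro b
      obtain ⟨a, ha, hab⟩ := hq.surj b
      exact ⟨⟨a, ha⟩, hab⟩
    exact Module.Finite.of_surjective f hf
  · obtain ⟨T, hT⟩ := exT φ Q
    choose n n' hn using hA.uni
    have h1 := mck ℓ F V E A B K KB φ α Q αB β lam x y lamB xB yB n n' T hl hp hA.per hRF hq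
      hRFB hcomp hn hT 1 (fx_one α ⊤)
    have h2 : ∀ t, n t * 1 * n' t = 1 := fun t => by rw [mul_one, (hn t).1]
    have h3 : β (∑ k, x k * y k) = (T.card : F) • ∑ k, xB k * yB k := by
      calc β (∑ k, x k * y k) = β (∑ k, x k * 1 * y k) := by simp only [mul_one]
        _ = ∑ t ∈ T, ∑ k, xB k * β (n t * 1 * n' t) * yB k := h1
        _ = ∑ t ∈ T, ∑ k, xB k * yB k := by
            refine Finset.sum_congr rfl fun t _ => Finset.sum_congr rfl fun k _ => ?_
            rw [h2, hq.one, mul_one]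
        _ = (T.card : F) • ∑ k, xB k * yB k := by
            rw [Finset.sum_const, Nat.cast_smul_eq_nsmul]
    refine ⟨(T.card : F) • β u, ?_⟩
    rw [smul_mul_assoc, ← mul_smul_comm, ← h3, ← hq.mul u huQ _ hsQ, hu, hq.one]
  · intro P e he h1 h2 h3
    obtain ⟨a1, a2⟩ := bbk ℓ F V E A B K φ α Q αB β lam x y ⊤ hl hp hA.per hRF hq
    obtain ⟨b1, -⟩ := bbk ℓ F V E A B K φ α Q αB β lam x y P hl hp hA.per hRF hq
    rw [top_sup_eq] at a1 a2
    obtain ⟨e', he', hee⟩ := a2 e he
    have heP : e' ∈ FxR (cw F α) (P ⊔ Q) := fx_anti α le_top he'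
    have heQ : e' ∈ FxR (cw F α) Q := fx_anti α le_top he'
    have c1 : e' * e' - e' ∈ BKR (cw F α) (P ⊔ Q) := by
      have hm : e' * e' - e' ∈ FxR (cw F α) (P ⊔ Q) :=
        Submodule.sub_mem _ (fx_mul α _ heP heP) heP
      rw [← (b1 _ hm).2, bq_sub hq (fx_mul α _ heQ heQ) heQ, hq.mul _ heQ _ heQ, hee]
      exact h1
    have c2 : ∀ a ∈ FxR (cw F α) (P ⊔ Q), e' * a - a * e' ∈ BKR (cw F α) (P ⊔ Q) := by
      intro a ha
      have haQ : a ∈ FxR (cw F α) Q := fx_anti α le_sup_right ha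
      have hm : e' * a - a * e' ∈ FxR (cw F α) (P ⊔ Q) :=
        Submodule.sub_mem _ (fx_mul α _ heP ha) (fx_mul α _ ha heP)
      rw [← (b1 _ hm).2, bq_sub hq (fx_mul α _ heQ haQ) (fx_mul α _ haQ heQ),
        hq.mul _ heQ _ haQ, hq.mul _ haQ _ heQ, hee]
      exact h2 _ (b1 a ha).1
    have c3 : e' ∈ BKR (cw F α) ⊤ := by
      rw [← (a1 _ he').2, hee]
      exact h3
    have c4 := hA.blk (P ⊔ Q) e' he' c1 c2 c3
    have c5 := (b1 _ heP).2.mpr c4
    rwa [hee] at c5

end Pool.Agent.PSS.S0.H84
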