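import Pool.Agent.PSS.StmtsS1a

/-! RFE: the second identity follows from the first. -/

set_option autoImplicit false

open scoped BigOperators TensorProduct

noncomputable section

namespace Pool.Agent.PSS.H84

theorem rfe : RfeStmt := by
  intro k V A K _ _ _ _ _ _ α lam x y hs h1
  have nd : ∀ d, (∀ a, lam (d * a) = 0) → d = 0 := by
    intro d hd
    rw [← h1 d]
    refine Finset.sum_eq_zero fun i _ => Finset.sum_eq_zero fun v _ => ?_
    rw [hs, hd, zero_smul]
  have key : ∀ (f : A →ₗ[k] k) (a : A),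
      lam ((∑ i, ∑ v, f (x i * α v) • (α v⁻¹ * y i)) * a) = f a := by
    intro f a
    conv_rhs => rw [← h1 a]
    rw [Finset.sum_mul, map_sum, map_sum]
    refine Finset.sum_congr rfl fun i _ => ?_
    rw [Finset.sum_mul, map_sum, map_sum]
    refine Finset.sum_congr rfl fun v _ => ?_
    rw [smul_mul_assoc, map_smul, map_smul, smul_eq_mul, smul_eq_mul, mul_comm]
  refine ⟨⟨hs, h1, fun a => ?_⟩, nd, fun f => ⟨_, fun a => (key f a).symm⟩⟩
  have h2 : (∑ i, ∑ v, lam (a * (x i * α v)) • (α v⁻¹ * y i)) - a = 0 := by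
    refine nd _ fun b => ?_
    have h3 := key (lam.comp (LinearMap.mulLeft k a)) b
    simp only [LinearMap.comp_apply, LinearMap.mulLeft_apply] at h3
    rw [sub_mul, map_sub, h3, sub_self]
  exact sub_eq_zero.1 h2

end Pool.Agent.PSS.H84
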