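import Pool.Agent.PSS.StmtsS1b

/-! H1V: `H^1 = 0` (average over `V`). -/

set_option autoImplicit false

open scoped BigOperators TensorProduct

noncomputable section

namespace Pool.Agent.PSS.H84

/-- the crossed homomorphism of a derivation -/
def gg {R V A : Type} [CommRing R] [CommGroup V] [Ring A] [Algebra R A] (α : V →* A)
    (D : A →ₗ[R] A) (v : V) : A := D (α v) * α v⁻¹

section

variable {R V A : Type} [CommRing R] [CommGroup V] [Ring A] [Algebra R A] (α : V →* A)
  (D : A →ₗ[R] A)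

theorem al_inv (v : V) : α v * α v⁻¹ = 1 := by
  rw [← map_mul, mul_inv_cancel, map_one]

theorem al_inv' (v : V) : α v⁻¹ * α v = 1 := by
  rw [← map_mul, inv_mul_cancel, map_one]

theorem gg_mul (hD : ∀ a b, D (a * b) = D a * b + a * D b) (v w : V) :
    α v * gg α D w * α v⁻¹ = gg α D (v * w) - gg α D v := by
  unfold gg
  rw [map_mul α v w, hD, mul_inv_rev, map_mul, add_mul]
  have h1 : D (α v) * α w * (α w⁻¹ * α v⁻¹) = D (α v) * α v⁻¹ := by
    rw [mul_assoc (D (α v)), ← mul_assoc (α w), al_inv, one_mul]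
  rw [h1, add_sub_cancel_left]
  simp only [mul_assoc]

end

theorem h1v (csu : CsuStmt) (fxl : FxlStmt) : H1vStmt := by
  intro R K V E A B κ Ω _ _ _ _ _ _ _ _ _ _ _ _ _ _ _ φ W z α lam x y b c C u _ hu D hD hW
  obtain ⟨-, hc1, hc2⟩ := csu R V A κ α lam x y u C.rf hu
  -- the average in `B`
  have hn : ((Fintype.card V : ℕ) : K) ≠ 0 := by
    have : Fintype.card V ≠ 0 := Fintype.card_ne_zero
    exact_mod_cast this
  set s : B := -((Fintype.card V : K)⁻¹ • ∑ v, C.i (gg α D v)) with hs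
  have hconj : ∀ v : V, C.i (α v) * s * C.i (α v⁻¹) = s + C.i (gg α D v) := by
    intro v
    have h1 : C.i (α v) * (∑ w, C.i (gg α D w)) * C.i (α v⁻¹) =
        ∑ w, C.i (gg α D w) - (Fintype.card V : K) • C.i (gg α D v) := by
      rw [Finset.mul_sum, Finset.sum_mul]
      have h2 : ∀ w : V, C.i (α v) * C.i (gg α D w) * C.i (α v⁻¹) =
          C.i (gg α D (v * w)) - C.i (gg α D v) := by
        intro w
        rw [← map_mul, ← map_mul, gg_mul α D hD, map_sub]
      rw [Finset.sum_congr rfl fun w _ => h2 w, Finset.sum_sub_distrib]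
      have h3 : ∑ w : V, C.i (gg α D (v * w)) = ∑ w, C.i (gg α D w) :=
        Fintype.sum_equiv (Equiv.mulLeft v) _ _ fun w => rfl
      rw [h3, Finset.sum_const, Finset.card_univ, Nat.cast_smul_eq_nsmul]
    rw [hs, mul_neg, neg_mul, mul_smul_comm, smul_mul_assoc, h1, smul_sub, smul_smul,
      inv_mul_cancel₀ hn, one_smul]
    abel
  let X : Subgroup (V × V) := ((MonoidHom.id V).prod (MonoidHom.id V)).range
  obtain ⟨t, ht1, ht2⟩ := fxl R K V A B κ Ω α lam x y b c C X s (by
    rintro _ ⟨v, rfl⟩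
    refine ⟨gg α D v, ?_⟩
    have h1 : bw K (ia C.i α) (((MonoidHom.id V).prod (MonoidHom.id V)) v) s =
        C.i (α v) * (s * C.i (α v⁻¹)) := rfl
    rw [h1, ← mul_assoc, hconj, add_sub_cancel_left])
  have ht3 : ∀ v : V, C.i (α v) * t * C.i (α v⁻¹) = t := by
    intro v
    have h1 : bw K (ia C.i α) (((MonoidHom.id V).prod (MonoidHom.id V)) v) t =
        C.i (α v) * (t * C.i (α v⁻¹)) := rfl
    have h2 := ht1 _ ⟨v, rfl⟩
    rw [h1, ← mul_assoc] at h2
    exact h2
  obtain ⟨e0, he0⟩ := ht2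
  -- `e₁ = - e0`
  have hgg : ∀ v : V, α v * (-e0) * α v⁻¹ = -e0 + gg α D v := by
    intro v
    apply C.inj
    rw [map_mul, map_mul, map_add, map_neg, he0]
    have h1 : C.i (α v) * -(t - s) * C.i (α v⁻¹) =
        C.i (α v) * s * C.i (α v⁻¹) - C.i (α v) * t * C.i (α v⁻¹) := by
      rw [neg_sub, mul_sub, sub_mul]
    rw [h1, hconj, ht3]
    abel
  have hDv : ∀ v : V, D (α v) = α v * (-e0) - (-e0) * α v := by
    intro v
    have h1 := congrArg (fun a => a * α v) (hgg v)
    simp only [add_mul] at h1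
    have h2 : gg α D v * α v = D (α v) := by
      unfold gg
      rw [mul_assoc, al_inv', mul_one]
    rw [h2, mul_assoc, al_inv', mul_one] at h1
    rw [h1]
    abel
  -- the rest of the derivation
  let D₁ : A →ₗ[R] A := D - (LinearMap.mulRight R (-e0) - LinearMap.mulLeft R (-e0))
  have hD1 : ∀ a, D₁ a = D a - (a * (-e0) - (-e0) * a) := fun a => rfl
  have hD1m : ∀ a b, D₁ (a * b) = D₁ a * b + a * D₁ b := by
    intro a b
    rw [hD1, hD1, hD1, hD]
    simp only [sub_mul, mul_sub, mul_assoc]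
    abel
  have hD1v : ∀ v, D₁ (α v) = 0 := by
    intro v
    rw [hD1, hDv, sub_self]
  have h2 := hc2 A ((LinearMap.mul R A).compl₂ D₁) (by
    intro a g b
    simp only [LinearMap.compl₂_apply, LinearMap.mul_apply']
    rw [hD1m, hD1v, zero_mul, zero_add, mul_assoc])
  simp only [LinearMap.compl₂_apply, LinearMap.mul_apply'] at h2
  have h3 : ∀ a, a * (∑ i, x i * D₁ (y i * u)) - (∑ i, x i * D₁ (y i * u)) * a = D₁ a := by
    intro a
    have h4 := h2 a
    have h5 : ∑ i, a * x i * D₁ (y i * u) = a * ∑ i, x i * D₁ (y i * u) := by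
      rw [Finset.mul_sum]
      exact Finset.sum_congr rfl fun i _ => mul_assoc _ _ _
    have h6 : ∑ i, x i * D₁ (y i * u * a) =
        (∑ i, x i * D₁ (y i * u)) * a + (∑ i, x i * (y i * u)) * D₁ a := by
      rw [Finset.sum_mul, Finset.sum_mul, ← Finset.sum_add_distrib]
      refine Finset.sum_congr rfl fun i _ => ?_
      rw [hD1m]
      simp only [mul_add, mul_assoc]
    rw [h5, h6, hc1, one_mul] at h4
    rw [h4, add_sub_cancel_left]
  generalize (∑ i, x i * D₁ (y i * u)) = e2 at h3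
  have hall : ∀ a, D a = a * (-e0 + e2) - (-e0 + e2) * a := by
    intro a
    have h7 := h3 a
    rw [hD1] at h7
    rw [mul_add, add_mul]
    have h8 : D a = (a * e2 - e2 * a) + (a * (-e0) - (-e0) * a) := by
      rw [h7]
      abel
    rw [h8]
    abel
  refine ⟨-e0 + e2, fun w hw => ?_, hall⟩
  have h9 := hall (α w)
  rw [hW w hw] at h9
  exact (sub_eq_zero.1 h9.symm).symm

end Pool.Agent.PSS.H84
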