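import Pool.Agent.PSS.StmtsS1e

/-! Squad PSS, row GEN: existence of the deformation with its first order term. -/

open scoped BigOperators TensorProduct

noncomputable section

namespace Pool.Agent.PSS.H84

open Pool.Agent.PFD.D2 (Cdv FibG)
open Pool.Agent.PFD.D2b (FrR)
open Finset
open Dm (cst)

section kc

variable {R K V A B κ Ω : Type} [CommRing R] [Field K] [Algebra R K] [CommGroup V]
  [Fintype V] [Ring A] [Algebra R A] [Ring B] [Algebra R B] [Algebra K B] [Fintype κ] [Fintype Ω]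
  [MulAction (V × V) Ω] {α : V →* A} {lam : A →ₗ[R] R} {x y : κ → A} {b : Ω → A}
  {c : Ω → (A →ₗ[R] R)}

theorem kc_ext (C : KC R K B α lam x y b c) {M : Type} [AddCommGroup M] [Module K M]
    (f g : B →ₗ[K] M) (h : ∀ a, f (C.i a) = g (C.i a)) (s : B) : f s = g s := by
  have h1 := C.frK.2.2 s
  rw [← h1, map_sum, map_sum]
  refine Finset.sum_congr rfl fun ω _ => ?_
  rw [map_smul, map_smul, h]

theorem gen_g (C : KC R K B α lam x y b c) (n : ℕ) (hn : (n : K) ≠ 0) (W : Subgroup V)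
    (v : A →ₗ[R] A)
    (hvW : ∀ w ∈ W, ∀ a, v (α w * a) = α w * v a ∧ v (a * α w) = v a * α w)
    (hv : ∀ a a', ∃ e, v (a * a') - v a * a' - a * v a' = (n : R) • e) :
    ∃ g : B →ₗ[K] B, WBl (ia C.i α) W g ∧ g 1 = 0 ∧
      (∀ a₁ a₂, In C.i (d1 g (C.i a₁) (C.i a₂))) ∧
      ∀ a, C.i (v a - v 1 * a) = (n : K) • g (C.i a) := by
  have hsm : ∀ (m : ℕ) (e : A), C.i ((m : R) • e) = (m : K) • C.i e := by
    intro m e
    rw [map_smul, ← C.tow, map_natCast]
  let g₀ : B →ₗ[K] B := ∑ ω, (C.cK ω).smulRight (C.i (v (b ω)))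
  have hg₀ : ∀ a, g₀ (C.i a) = C.i (v a) := by
    intro a
    show (∑ ω, (C.cK ω).smulRight (C.i (v (b ω)))) (C.i a) = C.i (v a)
    rw [LinearMap.sum_apply]
    calc ∑ ω, ((C.cK ω).smulRight (C.i (v (b ω)))) (C.i a)
        = ∑ ω, C.i (v (c ω a • b ω)) := by
          refine Finset.sum_congr rfl fun ω _ => ?_
          rw [LinearMap.smulRight_apply, C.ck, C.tow, map_smul, map_smul]
      _ = C.i (v (∑ ω, c ω a • b ω)) := by rw [map_sum, map_sum]
      _ = C.i (v a) := by rw [C.fr.2.2 a]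
  let g : B →ₗ[K] B := (n : K)⁻¹ • (g₀ - LinearMap.mulLeft K (C.i (v 1)))
  have hg : ∀ a, g (C.i a) = (n : K)⁻¹ • C.i (v a - v 1 * a) := by
    intro a
    show (n : K)⁻¹ • (g₀ (C.i a) - C.i (v 1) * C.i a) = _
    rw [hg₀, map_sub, map_mul]
  have hg1 : ∀ a, C.i (v a - v 1 * a) = (n : K) • g (C.i a) := by
    intro a
    rw [hg, smul_smul, mul_inv_cancel₀ hn, one_smul]
  have hv1 : ∀ w ∈ W, α w * v 1 = v 1 * α w := by
    intro w hw
    rw [← (hvW w hw 1).1, ← (hvW w hw 1).2, mul_one, one_mul]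
  refine ⟨g, ?_, ?_, ?_, hg1⟩
  · intro w hw s
    constructor
    · refine kc_ext C (g.comp (LinearMap.mulLeft K (ia C.i α w)))
        ((LinearMap.mulLeft K (ia C.i α w)).comp g) ?_ s
      intro a
      show g (C.i (α w) * C.i a) = C.i (α w) * g (C.i a)
      rw [← map_mul, hg, hg, mul_smul_comm, ← map_mul, (hvW w hw a).1, ← mul_assoc, ← hv1 w hw,
        mul_assoc, ← mul_sub]
    · refine kc_ext C (g.comp (LinearMap.mulRight K (ia C.i α w)))
        ((LinearMap.mulRight K (ia C.i α w)).comp g) ?_ s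
      intro a
      show g (C.i a * C.i (α w)) = g (C.i a) * C.i (α w)
      rw [← map_mul, hg, hg, smul_mul_assoc, ← map_mul, (hvW w hw a).2, ← mul_assoc,
        ← sub_mul]
  · have h := hg 1
    rw [mul_one, sub_self, map_zero, smul_zero, map_one] at h
    exact h
  · intro a₁ a₂
    obtain ⟨e, he⟩ := hv a₁ a₂
    obtain ⟨e1, he1⟩ := hv 1 1
    have h1 : v 1 = (n : R) • (-e1) := by
      rw [smul_neg, ← he1]
      simp
    refine ⟨-e + a₁ * e1 * a₂, ?_⟩
    have h2 : d1 g (C.i a₁) (C.i a₂)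
        = (n : K)⁻¹ • C.i (a₁ * (v a₂ - v 1 * a₂) - (v (a₁ * a₂) - v 1 * (a₁ * a₂))
          + (v a₁ - v 1 * a₁) * a₂) := by
      unfold d1
      rw [← map_mul, hg, hg, hg, mul_smul_comm, smul_mul_assoc, ← map_mul, ← map_mul,
        ← smul_sub, ← smul_add, ← map_sub, ← map_add]
    have h3 : a₁ * (v a₂ - v 1 * a₂) - (v (a₁ * a₂) - v 1 * (a₁ * a₂))
          + (v a₁ - v 1 * a₁) * a₂ = (n : R) • (-e + a₁ * e1 * a₂) := by
      have h4 : a₁ * (v a₂ - v 1 * a₂) - (v (a₁ * a₂) - v 1 * (a₁ * a₂))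
          + (v a₁ - v 1 * a₁) * a₂
          = -(v (a₁ * a₂) - v a₁ * a₂ - a₁ * v a₂) - a₁ * v 1 * a₂ := by
        noncomm_ring
      rw [h4, he, h1, mul_smul_comm, smul_mul_assoc, smul_add, smul_neg, mul_neg, neg_mul,
        smul_neg, sub_neg_eq_add]
    rw [h2, h3, hsm, smul_smul, inv_mul_cancel₀ hn, one_smul]

end kc

theorem sq_psi {R F V A A₀ : Type} [CommRing R] [Field F] [CommGroup V] [Ring A] [Algebra R A]
    [Ring A₀] [Algebra F A₀] {W : Subgroup V} {α : V →* A} {α₀ : V →* A₀}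
    (D : Dm R (aw α W)) (D₀ : Dm F (aw α₀ W)) (q : A →+* A₀) (ψ : D.R →+* D₀.R)
    (h : ∀ g, ψ (D.of g) = D₀.of (fun n => q (g n))) (s : D.R) (n : ℕ) :
    D₀.sq (ψ s) n = q (D.sq s n) := by
  have h1 : ψ s = D₀.of (fun n => q (D.sq s n)) := by
    rw [← h, D.of_sq]
  rw [h1, D₀.sq_of]

theorem X_smul {F W A : Type} [CommRing F] [Group W] [Ring A] [Algebra F A] {om : W →* A}
    (D : Dm F om) (s : D.R) (h : D.sq s 0 = 0) :
    s = (PowerSeries.X : PowerSeries F) • D.of (fun n => D.sq s (n + 1)) := by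
  rw [← D.of_smul]
  conv_lhs => rw [← D.of_sq s]
  congr 1
  funext n
  unfold Dm.smulq
  rcases n with _ | n
  · rw [h, Finset.Nat.antidiagonal_zero, Finset.sum_singleton, PowerSeries.coeff_zero_X,
      zero_smul]
  · rw [Finset.sum_eq_single (1, n)]
    · rw [PowerSeries.coeff_one_X, one_smul]
    · rintro ⟨a, b⟩ hab hne
      rw [PowerSeries.coeff_X]
      split_ifs with h1
      · exfalso
        apply hne
        rw [Finset.HasAntidiagonal.mem_antidiagonal] at hab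
        simp only at h1 hab
        rw [h1] at hab ⊢
        congr 1
        omega
      · rw [zero_smul]
    · intro h1
      exact absurd (by rw [Finset.HasAntidiagonal.mem_antidiagonal]; omega) h1

theorem gen (kex : KexStmt) (tgn : TgnStmt) (dmr : DmrStmt) (dmf : DmfStmt) (h1v : H1vStmt)
    (rwv : RwvStmt) (fmx : FmxStmt) (fsr : FsrStmt) (red : RedStmt) (for_ : ForStmt) :
    GenStmt := by
  classical
  intro R F V E A A₀ κ Ω _ _ _ _ _ _ _ _ _ _ _ _ _ _ _ _ _ φ W _ z α lam x y b c u cv f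
    α₀ lam₀ v d hRF hFr hSt hVz hu hα hlam hn hvW hv hvd
  let K := FractionRing R
  have hinj : Function.Injective (algebraMap R K) := IsFractionRing.injective R K
  have hK : CharZero K := charZero_of_injective_algebraMap hinj
  obtain ⟨C⟩ := kex R K V A κ Ω α lam x y b c hRF hFr
  have hn0 : ((orderOf z : ℕ) : K) ≠ 0 := by
    have h1 : orderOf z ≠ 0 := (orderOf_pos z).ne'
    exact_mod_cast h1
  obtain ⟨g, hgW, hg1, hgd, hgv⟩ := gen_g C (orderOf z) hn0 W v hvW hv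
  obtain ⟨P, m, hT, hP1, hIn⟩ := tgn R K V E A (K ⊗[R] A) κ Ω φ W z α lam x y b c C u hVz hSt
    hu g hgW hg1 hgd
  obtain ⟨D, hD⟩ := dmr R K V A (K ⊗[R] A) W α C.i C.inj C.tow P m hT hIn
  obtain ⟨D₀, hD₀⟩ := dmf R F V A A₀ W α cv f α₀ D hα
  have hH : H1P R (aw α W) := by
    intro δ hδ hδw
    obtain ⟨e, he1, he2⟩ := h1v R K V E A (K ⊗[R] A) κ Ω φ W z α lam x y b c C u hVz hu δ hδ
      (fun w hw => hδw ⟨w, hw⟩)
    exact ⟨e, fun w => he1 w w.2, he2⟩
  have hRW := rwv R V E A κ φ W z α lam x y hVz hRF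
  obtain ⟨Λ, hΛs, hΛ0⟩ := fmx R W A (κ × Fin (orderOf z)) (aw α W) D lam _ _ hH hRW
  obtain ⟨y', hRF', -⟩ := fsr R W A (κ × Fin (orderOf z)) (aw α W) D lam _ _ Λ hRW hΛs hΛ0
  obtain ⟨ψ, Λ₀, hψ, hψw, hψs, hΛ₀, hRF₀⟩ := red R F V A A₀ (κ × Fin (orderOf z)) W α cv f α₀ D
    D₀ Λ _ y' hα hD₀ hRF'
  let v₁ : A →ₗ[R] A := v - LinearMap.mulLeft R (v 1)
  have hv₁ : ∀ a, v₁ a = v a - v 1 * a := fun a => rfl
  obtain ⟨d₁, hd₁, hrt⟩ := for_ R K V E A (K ⊗[R] A) κ Ω φ W z α lam x y b c C u hVz hSt hu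
    (κ × Fin (orderOf z)) P m v₁ D Λ _ y' hT (fun a => by rw [hv₁, hP1]; exact hgv a) hD hRF'
    hΛ0
  -- `n` is zero modulo `π`
  have hκn : cv.κ (orderOf z : R) = 0 := (cv.ker _).mpr hn
  have hqs : ∀ (r : R) (a : A), f.q (r • a) = cv.κ r • f.q a := by
    intro r a
    rw [Algebra.smul_def, map_mul, f.sc, Algebra.smul_def]
  obtain ⟨e1, he1⟩ := hv 1 1
  have hv1 : v 1 = (orderOf z : R) • (-e1) := by
    rw [smul_neg, ← he1]
    simp
  have hqd : f.q d₁ = f.q d := by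
    have h1 : ∀ a, cv.κ (lam ((d₁ - d) * a)) = 0 := by
      intro a
      obtain ⟨ρ, hρ⟩ := hd₁ a
      have h2 : cv.κ (lam (d₁ * a)) = - cv.κ (lam (v a)) := by
        have h3 : lam (d₁ * a) = (orderOf z : R) * ρ - lam (v a)
            + (orderOf z : R) * lam (-e1 * a) := by
          have h4 : lam (v₁ a) = lam (v a) - (orderOf z : R) * lam (-e1 * a) := by
            rw [hv₁, map_sub, hv1, smul_mul_assoc, map_smul, smul_eq_mul]
          rw [h4] at hρ
          linear_combination hρ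
        rw [h3, map_add, map_sub, map_mul, map_mul, hκn, zero_mul, zero_mul, add_zero, zero_sub]
      have h5 : cv.κ (lam (d * a)) = - cv.κ (lam (v a)) := by
        have h6 := hvd a
        rw [hRF.sym a d, map_add] at h6
        exact eq_neg_of_add_eq_zero_right h6
      rw [sub_mul, map_sub, map_sub, h2, h5, sub_self]
    have h7 := congrArg f.q (hRF.e1 (d₁ - d))
    rw [map_sum] at h7
    have h8 : ∀ k ∈ (Finset.univ : Finset κ),
        f.q (∑ w, lam (α w⁻¹ * y k * (d₁ - d)) • (x k * α w)) = 0 := by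
      intro k _
      rw [map_sum]
      refine Finset.sum_eq_zero fun w _ => ?_
      rw [hqs, hRF.sym, h1, zero_smul]
    rw [Finset.sum_eq_zero h8, map_sub] at h7
    exact (sub_eq_zero.mp h7.symm)
  refine ⟨D₀, Λ₀, κ × Fin (orderOf z), inferInstance, _, _, hRF₀, ?_, ?_⟩
  · intro g'
    choose s hs using f.surj
    have h1 : D₀.of g' = ψ (D.of (fun n => s (g' n))) := by
      rw [hψ]
      congr 1
      funext n
      exact (hs _).symm
    rw [h1, hΛ₀, ← PowerSeries.coeff_zero_eq_constantCoeff_apply, PowerSeries.coeff_map,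
      PowerSeries.coeff_zero_eq_constantCoeff_apply, hΛ0, hlam, hs]
  · intro w
    obtain ⟨r0, r1⟩ := hrt w
    set S : D.R := rt (fun t : κ × Fin (orderOf z) => D.of (cst (x t.1 * α (z ^ (t.2 : ℕ)))))
      y' (D.w w) with hS
    have h1 : rt (fun t : κ × Fin (orderOf z) =>
        ψ (D.of (cst (x t.1 * α (z ^ (t.2 : ℕ)))))) (fun t => ψ (y' t)) (D₀.w w) = ψ S := by
      rw [hS]
      unfold rt
      rw [map_sum]
      refine Finset.sum_congr rfl fun t _ => ?_
      rw [map_mul, map_mul, hψw]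
    have h2 : D₀.sq (ψ S) 0 = 0 := by
      rw [sq_psi D D₀ f.q ψ hψ, r0, hqs, hκn, zero_smul]
    refine ⟨D₀.of (fun n => D₀.sq (ψ S) (n + 1)), ?_, ?_⟩
    · rw [h1]
      exact X_smul D₀ (ψ S) h2
    · rw [D₀.sq_of, sq_psi D D₀ f.q ψ hψ]
      show f.q (D.sq S 1) = _
      rw [r1, map_neg, map_add, map_mul, hqd, hv₁, map_sub, map_mul, hv1, hqs, hκn, zero_smul,
        zero_mul, sub_zero, map_add, map_mul, add_comm]

end Pool.Agent.PSS.H84
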