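import Pool.Agent.PSS.StmtsS5

/-! Squad PSS, row PCX: decomposition of `1` into primitive central idempotents. -/

open scoped BigOperators

noncomputable section

namespace Pool.Agent.PSS.S5.H84

theorem fam_mul {A ι : Type} [Ring A] [Fintype ι] {b : ι → A} {f : A}
    (h1 : ∀ i, Pci (b i)) (h2 : ∀ i k, i ≠ k → b i * b k = 0) (h3 : ∑ i, b i = f) (i : ι) :
    b i * f = b i := by
  classical
  rw [← h3, Finset.mul_sum, Finset.sum_eq_single i]
  · exact (h1 i).id
  · intro k _ hk
    exact h2 i k hk.symm
  · intro h
    exact absurd (Finset.mem_univ i) h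

theorem pcx (fit : FitStmt) : PcxStmt := by
  classical
  intro F A _ _ _ _
  have key : ∀ (n : ℕ) (f : A), Module.finrank F (zb F f) = n → (∀ a, f * a = a * f) →
      f * f = f → ∃ (ι : Type) (_ : Fintype ι) (b : ι → A), (∀ i, Pci (b i)) ∧
        (∀ i k, i ≠ k → b i * b k = 0) ∧ ∑ i, b i = f := by
    intro n
    induction n using Nat.strong_induction_on with
    | _ n ih =>
      intro f hn hc hi
      by_cases h0 : f = 0
      · refine ⟨Empty, inferInstance, Empty.elim, fun i => i.elim, fun i => i.elim, ?_⟩
        rw [h0]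
        exact Finset.sum_eq_zero fun i _ => i.elim
      by_cases hP : Pci f
      · refine ⟨Unit, inferInstance, fun _ => f, fun _ => hP,
          fun i k h => absurd (Subsingleton.elim i k) h, ?_⟩
        rw [Fintype.sum_unique]
      have h1 : ∃ z, (∀ a, z * a = a * z) ∧ ¬ IsNilpotent (z * f) ∧
          ¬ ∃ z', (∀ a, z' * a = a * z') ∧ z * f * z' = f := by
        by_contra hcon
        apply hP
        refine ⟨hc, hi, h0, fun z hz => ?_⟩
        by_contra h2
        rw [not_or] at h2
        exact hcon ⟨z, hz, h2.1, h2.2⟩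
      obtain ⟨z, hz, hz1, hz2⟩ := h1
      have hfz : f * z * f = z * f := by
        rw [← hz, mul_assoc, hi]
      have hmem : ∀ x : A, (∀ a, x * a = a * x) → x ∈ Subalgebra.center F A := by
        intro x hx
        rw [Subalgebra.mem_center_iff]
        exact fun a => (hx a).symm
      obtain ⟨j, hj, hj1, hj2, hj3, hj4, hj5⟩ := fit F A (Subalgebra.center F A) f z (hmem f hc)
        (hmem z hz) hi (by rwa [hfz]) (by
          rintro ⟨y, hy, hy1, -⟩
          rw [Subalgebra.mem_center_iff] at hy
          refine hz2 ⟨f * y * f, fun a => ?_, ?_⟩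
          · rw [mul_assoc, hc a, ← mul_assoc, mul_assoc f y a, ← hy a, ← mul_assoc f a y, hc a,
              mul_assoc a f y, mul_assoc a (f * y) f]
          · rw [← hfz]
            exact hy1)
      rw [Subalgebra.mem_center_iff] at hj
      have hjc : ∀ a, j * a = a * j := fun a => (hj a).symm
      have hk1 : ∀ a, (f - j) * a = a * (f - j) := fun a => by
        rw [sub_mul, mul_sub, hc, hjc]
      have hk2 : (f - j) * (f - j) = f - j := by
        rw [mul_sub, sub_mul, sub_mul, hi, hj1, hj2, hj3]
        abel
      have hf : f ∈ zb F f := ⟨hc, hi⟩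
      have l1 : zb F j < zb F f := by
        refine lt_of_le_of_ne ?_ ?_
        · rintro x ⟨hx1, hx2⟩
          refine ⟨hx1, ?_⟩
          rw [← hx2, mul_assoc, hj3]
        · intro h
          rw [← h] at hf
          exact hj5 (hj2.symm.trans hf.2)
      have l2 : zb F (f - j) < zb F f := by
        refine lt_of_le_of_ne ?_ ?_
        · rintro x ⟨hx1, hx2⟩
          refine ⟨hx1, ?_⟩
          rw [← hx2, mul_assoc, sub_mul, hi, hj3]
        · intro h
          rw [← h] at hf
          have h4 : f * (f - j) = f := hf.2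
          rw [mul_sub, hi, hj2, sub_eq_self] at h4
          exact hj4 h4
      obtain ⟨ι, _, b, b1, b2, b3⟩ := ih _ (hn ▸ Submodule.finrank_lt_finrank_of_lt l1) j rfl
        hjc hj1
      obtain ⟨ι', _, b', b1', b2', b3'⟩ := ih _ (hn ▸ Submodule.finrank_lt_finrank_of_lt l2)
        (f - j) rfl hk1 hk2
      have h5 : ∀ i k, b i * b' k = 0 := by
        intro i k
        rw [← fam_mul b1 b2 b3 i, ← fam_mul b1' b2' b3' k, mul_assoc, ← hk1 (b' k),
          ← mul_assoc j, mul_sub, hj3, hj1, sub_self, zero_mul, mul_zero]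
      refine ⟨ι ⊕ ι', inferInstance, Sum.elim b b', ?_, ?_, ?_⟩
      · rintro (i | i)
        · exact b1 i
        · exact b1' i
      · rintro (i | i) (k | k) h
        · exact b2 i k fun e => h (by rw [e])
        · exact h5 i k
        · show b' i * b k = 0
          rw [(b1' i).cen, h5]
        · exact b2' i k fun e => h (by rw [e])
      · rw [Fintype.sum_sum_type]
        show ∑ i, b i + ∑ i, b' i = f
        rw [b3, b3', add_sub_cancel]
  obtain ⟨ι, _, b, h1, h2, h3⟩ := key _ 1 rfl (fun a => by rw [one_mul, mul_one]) (one_mul 1)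
  let e := (Fintype.equivFin ι).symm
  refine ⟨Fintype.card ι, fun i => b (e i), fun i => h1 _,
    fun i k h => h2 _ _ fun h' => h (e.injective h'), ?_⟩
  rw [← h3]
  exact Equiv.sum_comp e b

end Pool.Agent.PSS.S5.H84
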