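import Pool.Agent.PSS.StmtsS1c

/-! TRC: change of `P`. -/

set_option autoImplicit false

open scoped BigOperators TensorProduct

noncomputable section

namespace Pool.Agent.PSS.H84

open Finset

section

variable {K V B : Type} [Field K] [CommGroup V] [Ring B] [Algebra K B] {β : V →* B}
  {W : Subgroup V} {P P' : ℕ → (B →ₗ[K] B)} {m m' : ℕ → (B →ₗ[K] B →ₗ[K] B)} {N : ℕ}

theorem trv_m0 (T : Trv β W P m) (x y : B) : m 0 x y = x * y := by
  have h := T.pm 0 x y
  simp only [Finset.Nat.antidiagonal_zero, sum_singleton, T.p0, LinearMap.id_apply] at h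
  exact h.symm

theorem trv_eq (T : Trv β W P m) (T' : Trv β W P' m') (h : ∀ n ≤ N, P' n = P n) (n : ℕ) :
    n ≤ N → m' n = m n := by
  induction n using Nat.strong_induction_on with
  | _ n ih =>
    intro hn
    ext x y
    have h1 := T.pm n x y
    have h2 := T'.pm n x y
    have h3 : ∑ p ∈ antidiagonal n, P' p.1 x * P' p.2 y = ∑ p ∈ antidiagonal n, P p.1 x * P p.2 y := by
      refine sum_congr rfl fun p hp => ?_
      have hp1 := HasAntidiagonal.mem_antidiagonal.1 hp
      rw [h p.1 (by omega), h p.2 (by omega)]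
    rw [h3, h1] at h2
    have h4 : ∑ p ∈ antidiagonal n, (P' p.1 (m' p.2 x y) - P p.1 (m p.2 x y)) = 0 := by
      rw [sum_sub_distrib, ← h2, sub_self]
    rw [sum_eq_single (0, n)] at h4
    · simp only [T.p0, T'.p0, LinearMap.id_apply] at h4
      exact sub_eq_zero.1 h4
    · intro p hp hne
      have hp1 := HasAntidiagonal.mem_antidiagonal.1 hp
      have hlt : p.2 < n := by
        rcases Nat.eq_zero_or_pos p.1 with h0 | h0
        · exact absurd (Prod.ext h0 (by simp only; omega)) hne
        · omega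
      rw [ih p.2 hlt (by omega), h p.1 (by omega), sub_self]
    · intro hc
      exact absurd (HasAntidiagonal.mem_antidiagonal.2 (by simp)) hc

end

theorem trc : TrcStmt := by
  intro K V B _ _ _ _ β W P P' m m' N T T' h
  refine ⟨fun n hn => trv_eq T T' h n hn, fun x y => ?_⟩
  have hm := fun n hn => trv_eq T T' h n hn
  have h1 := T.pm (N + 1) x y
  have h2 := T'.pm (N + 1) x y
  have h3 : ∑ p ∈ antidiagonal (N + 1), (P' p.1 x * P' p.2 y - P p.1 x * P p.2 y) =
      ∑ p ∈ antidiagonal (N + 1), (P' p.1 (m' p.2 x y) - P p.1 (m p.2 x y)) := by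
    rw [sum_sub_distrib, sum_sub_distrib, h1, h2]
  have hne : ((0 : ℕ), N + 1) ≠ (N + 1, 0) := by
    intro hc
    have := congrArg Prod.fst hc
    simp at this
  have hmid : ∀ p ∈ antidiagonal (N + 1), p ≠ ((0 : ℕ), N + 1) ∧ p ≠ (N + 1, 0) →
      p.1 ≤ N ∧ p.2 ≤ N := by
    intro p hp hc
    have hp1 := HasAntidiagonal.mem_antidiagonal.1 hp
    constructor
    · by_contra hcc
      exact hc.2 (Prod.ext (by simp only; omega) (by simp only; omega))
    · by_contra hcc
      exact hc.1 (Prod.ext (by simp only; omega) (by simp only; omega))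
  rw [sum_eq_add (0, N + 1) (N + 1, 0) hne, sum_eq_add (0, N + 1) (N + 1, 0) hne] at h3
  · simp only [T.p0, T'.p0, LinearMap.id_apply, trv_m0 T, trv_m0 T'] at h3
    unfold d1
    have h4 : m' (N + 1) x y = m (N + 1) x y + ((x * P' (N + 1) y - x * P (N + 1) y +
        (P' (N + 1) x * y - P (N + 1) x * y)) - (P' (N + 1) (x * y) - P (N + 1) (x * y))) := by
      rw [h3]
      abel
    rw [h4]
    simp only [mul_sub, sub_mul]
    abel
  · intro p hp hc
    obtain ⟨a, b⟩ := hmid p hp hc
    rw [h _ a, hm _ b, sub_self]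
  · intro hc
    exact absurd (HasAntidiagonal.mem_antidiagonal.2 (by simp)) hc
  · intro hc
    exact absurd (HasAntidiagonal.mem_antidiagonal.2 (by simp)) hc
  · intro p hp hc
    obtain ⟨a, b⟩ := hmid p hp hc
    rw [h _ a, h _ b, sub_self]
  · intro hc
    exact absurd (HasAntidiagonal.mem_antidiagonal.2 (by simp)) hc
  · intro hc
    exact absurd (HasAntidiagonal.mem_antidiagonal.2 (by simp)) hc

end Pool.Agent.PSS.H84
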